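import Mathlib
import Pool.Agent.H297.KtGraph

set_option autoImplicit false

namespace Pool.Agent.Results.MP_64e56f_co.ExpFactor

/-- Any two distinct members `G ≠ G'` of the family have a symmetric difference with independence
number at least `r`: some `r`-set of vertices spans no edge of `G △ G'`. -/
def Admissible (r n : ℕ) (F : Finset (SimpleGraph (Fin n))) : Prop :=
  ∀ G ∈ F, ∀ H ∈ F, G ≠ H → ∃ U : Finset (Fin n), (symmDiff G H).IsNIndepSet r U

/-- `A_r(n)`: the largest size of such a family. -/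
noncomputable def A (r n : ℕ) : ℕ :=
  sSup {m : ℕ | ∃ F : Finset (SimpleGraph (Fin n)), Admissible r n F ∧ F.card = m}

theorem bound (r n : ℕ) (hr : 5 ≤ r) (hn : r ≤ n) (F : Finset (SimpleGraph (Fin n)))
    (hF : Admissible r n F) :
    (F.card : ℝ) ≤ 327 ^ r * (2 ^ (n.choose 2) / 2 ^ (r.choose 2)) := by
  have h := Pool.Agent.H297.agree_graph_bound r hr F (by
    intro G hG H hH
    by_cases hGH : G = H
    · subst hGH
      obtain ⟨U, _, hU⟩ := Finset.exists_subset_card_eq (s := (Finset.univ : Finset (Fin n)))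
        (n := r) (by rw [Finset.card_univ, Fintype.card_fin]; exact hn)
      exact ⟨U, hU, fun u _ v _ => Iff.rfl⟩
    · obtain ⟨U, hU⟩ := hF G hG H hH hGH
      refine ⟨U, hU.card_eq, ?_⟩
      intro u hu v hv
      by_cases huv : u = v
      · subst huv
        simp
      · have h2 := hU.isIndepSet hu hv huv
        simp only [symmDiff, SimpleGraph.sup_adj, SimpleGraph.sdiff_adj] at h2
        tauto)
  rw [Fintype.card_fin] at h
  calc (F.card : ℝ) ≤ 327 ^ r * 2 ^ (n.choose 2) / 2 ^ (r.choose 2) := h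
    _ = _ := by ring

theorem result : ∀ r n : ℕ, 5 ≤ r → r ≤ n →
    (A r n : ℝ) ≤ 327 ^ r * (2 ^ (n.choose 2) / 2 ^ (r.choose 2)) := by
  intro r n hr hn
  have hne : {m : ℕ | ∃ F : Finset (SimpleGraph (Fin n)), Admissible r n F ∧
      F.card = m}.Nonempty :=
    ⟨0, ∅, fun G hG => absurd hG (Finset.notMem_empty G), Finset.card_empty⟩
  have hbdd : BddAbove {m : ℕ | ∃ F : Finset (SimpleGraph (Fin n)), Admissible r n F ∧
      F.card = m} := by
    classical
    refine ⟨Fintype.card (SimpleGraph (Fin n)), ?_⟩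
    rintro m ⟨F, _, rfl⟩
    exact Finset.card_le_univ F
  obtain ⟨F, hF, hc⟩ := Nat.sSup_mem hne hbdd
  have := bound r n hr hn F hF
  rw [hc] at this
  exact this

end Pool.Agent.Results.MP_64e56f_co.ExpFactor
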