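import Mathlib
import Pool.Agent.Helper281.Kr.Agree

set_option autoImplicit false

namespace Pool.Agent.Results.MP_64e56f_co.LogRange

/-- For `64 * ⌈log₂ n⌉ ≤ r ≤ n`, the largest size of a family of graphs on `n` labelled vertices
in which any two distinct members have a symmetric difference with an independent set of size `r`
is `2 ^ (C(n,2) - C(r,2))`. -/
theorem result (n r : ℕ) (hn : 2 ≤ n) (hr : 64 * Nat.clog 2 n ≤ r) (hrn : r ≤ n) :
    IsGreatest {m : ℕ | ∃ F : Finset (SimpleGraph (Fin n)), F.card = m ∧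
      ∀ G ∈ F, ∀ H ∈ F, G ≠ H → ∃ s : Finset (Fin n), (symmDiff G H).IsNIndepSet r s}
      (2 ^ (n.choose 2 - r.choose 2)) := by
  constructor
  · obtain ⟨F, hF, h⟩ := Pool.Agent.Helper281.Kr.lower_agree r hrn
    exact ⟨F, hF, h⟩
  · rintro m ⟨F, rfl, hF⟩
    exact Pool.Agent.Helper281.Kr.upper_agree r hn hr hrn F hF

end Pool.Agent.Results.MP_64e56f_co.LogRange
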